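import Pool.Agent.Run7.h282.TS.FIN
import Pool.Agent.Run7.h99.TS.COV
import Pool.Agent.Run7.h99.TS.LIM
import Pool.Agent.Run7.h594.TS.BLOW
import Pool.Agent.Run7.h594.TS.NUM

/-!
# MP_ea5d3c_co, Q1 (partial): the rescaled Turan densities satisfy `t_*(r) = O(log r)`

`T n k r` is the least number of edges of an `r`-graph on `n` vertices in which every set of `k` vertices
contains an edge (independence number less than `k`), `t k r` the limit superior (the limit, since the ratio is
nondecreasing) of `T n k r / C(n, r)`, and `tstar r` the infimum over `k > r` of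
`t_*(k, r) = (k - 1) ^ (r - 1) / r! * t(k, r)`. The definitions are in `Pool/Agent/Run7/h282/TS/Iface.lean`,
with an outline of the proof.
-/

set_option autoImplicit false

namespace Pool.Agent.Results.MP_ea5d3c_co.LogBound

/-- There is a constant `C` with `t_*(r) ≤ C log r` for all `r ≥ 2`. -/
theorem result : ∃ C : ℝ, ∀ r : ℕ, 2 ≤ r → Run7.h282.TS.tstar r ≤ C * Real.log r :=
  Run7.h282.TS.goal_of Run7.h99.TS.t_COV Run7.h594.TST.t_BLOW Run7.h99.TS.t_LIM Run7.h594.TST.t_NUM

end Pool.Agent.Results.MP_ea5d3c_co.LogBound
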